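import Pool.Agent.K3h28.RS.Sing

/-!
Convolution factors, and relatively quasi-invariant measures.
-/

set_option autoImplicit false

open MeasureTheory Filter Topology Set
open scoped ENNReal NNReal

namespace Pool.Agent.K3h28.RS

/-- the atoms of a factor -/
lemma atoms_le (ρ σ : Measure T) [IsProbabilityMeasure ρ] [IsProbabilityMeasure σ] (X : Finset T) :
    ∑ x ∈ X, ρ {x} • σ.map (fun z => x + z) ≤ (ρ.prod σ).map (fun y => y.1 + y.2) := by
  refine Measure.le_iff.2 fun A hA => ?_
  have hadd : Measurable fun y : T × T => y.1 + y.2 := measurable_add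
  rw [Measure.map_apply hadd hA, Measure.prod_apply (hadd hA), Measure.finsetSum_apply]
  have h1 : ∀ x ∈ X, (ρ {x} • σ.map (fun z => x + z)) A =
      σ (Prod.mk x ⁻¹' ((fun y : T × T => y.1 + y.2) ⁻¹' A)) * ρ {x} := by
    intro x _
    rw [Measure.smul_apply, smul_eq_mul, Measure.map_apply (measurable_const_add x) hA, mul_comm]
    rfl
  rw [Finset.sum_congr rfl h1, ← lintegral_finset]
  exact setLIntegral_le_lintegral _ _

lemma map_singular {κ : Measure T} (h : κ ⟂ₘ (volume : Measure T)) (x : T) :
    κ.map (fun z => x + z) ⟂ₘ (volume : Measure T) := by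
  obtain ⟨N, hN, h1, h2⟩ := h
  refine ⟨(fun z => -x + z) ⁻¹' N, measurable_const_add _ hN, ?_, ?_⟩
  · rw [Measure.map_apply (measurable_const_add x) (measurable_const_add _ hN)]
    have : (fun z => x + z) ⁻¹' ((fun z => -x + z) ⁻¹' N) = N := by
      ext z; simp
    rw [this, h1]
  · have : ((fun z => -x + z) ⁻¹' N)ᶜ = (fun z => -x + z) ⁻¹' Nᶜ := rfl
    rw [this, measure_preimage_add]
    exact h2

lemma sum_singular {ι : Type*} (X : Finset ι) (κ : ι → Measure T)
    (h : ∀ i, κ i ⟂ₘ (volume : Measure T)) : (∑ i ∈ X, κ i) ⟂ₘ (volume : Measure T) := by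
  classical
  induction X using Finset.induction_on with
  | empty => rw [Finset.sum_empty]; exact Measure.MutuallySingular.zero_left
  | insert a s ha ih =>
    rw [Finset.sum_insert ha]
    exact (h a).add_left ih

/-- the mass of the singular part does not increase -/
lemma sg_conv_le (ρ σ : Measure T) [IsProbabilityMeasure ρ] [IsProbabilityMeasure σ] :
    sg ((ρ.prod σ).map (fun y => y.1 + y.2)) univ ≤ sg σ univ := by
  set μ := (ρ.prod σ).map (fun y => y.1 + y.2) with hμ
  have hadd : Measurable fun y : T × T => y.1 + y.2 := measurable_add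
  obtain ⟨N, hN, h1, h2⟩ := sg_singular μ
  have h3 : sg μ univ ≤ μ Nᶜ := by
    have h4 : sg μ univ ≤ sg μ N + sg μ Nᶜ := by
      rw [← union_compl_self N]
      exact measure_union_le _ _
    rw [h1, zero_add] at h4
    exact h4.trans (sg_le μ _)
  refine h3.trans ?_
  rw [hμ, Measure.map_apply hadd hN.compl, Measure.prod_apply (hadd hN.compl)]
  have h5 : ∀ x, σ (Prod.mk x ⁻¹' ((fun y : T × T => y.1 + y.2) ⁻¹' Nᶜ)) ≤ sg σ univ := by
    intro x
    have e : Prod.mk x ⁻¹' ((fun y : T × T => y.1 + y.2) ⁻¹' Nᶜ) = (fun z => x + z) ⁻¹' Nᶜ := rfl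
    have h6 : ac σ ((fun z => x + z) ⁻¹' Nᶜ) = 0 := by
      apply ac_ac σ
      rw [measure_preimage_add]
      exact h2
    rw [e]
    calc σ ((fun z => x + z) ⁻¹' Nᶜ) = (sg σ + ac σ) ((fun z => x + z) ⁻¹' Nᶜ) := by
          rw [sg_add_ac]
      _ = sg σ ((fun z => x + z) ⁻¹' Nᶜ) := by rw [Measure.add_apply, h6, add_zero]
      _ ≤ sg σ univ := measure_mono (subset_univ _)
  refine (lintegral_mono h5).trans ?_
  rw [lintegral_const, measure_univ (μ := ρ), mul_one]

/-- **Factors.** -/
theorem factor_mem (ρ σ : Measure T) [IsProbabilityMeasure ρ] [IsProbabilityMeasure σ] {θ : T}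
    {c : ℝ≥0} (h : (c : ℝ≥0∞) ≤ ∑' x, min (ρ {x}) (ρ {x + θ})) {μ : Measure T}
    (hμ : (ρ.prod σ).map (fun y => y.1 + y.2) = μ) :
    ∀ A : Set T, MeasurableSet A →
      (c : ℝ≥0∞) * sg μ univ ≤ sg μ A + sg μ {x | x + θ ∉ A} := by
  classical
  intro A hA
  have hadd : Measurable fun y : T × T => y.1 + y.2 := measurable_add
  have hprob : IsProbabilityMeasure μ := by
    rw [← hμ]
    exact Measure.isProbabilityMeasure_map hadd.aemeasurable
  set w : T → ℝ≥0∞ := fun x => min (ρ {x}) (ρ {x + θ}) with hw
  have key : ∀ X : Finset T, (∑ x ∈ X, w x) * sg σ univ ≤ sg μ A + sg μ {x | x + θ ∉ A} := by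
    intro X
    set κ : Measure T := ∑ x ∈ X, w x • (sg σ).map (fun z => x + z) with hκ
    have hs : κ ⟂ₘ (volume : Measure T) :=
      sum_singular X _ fun x => (map_singular (sg_singular σ) x).smul _
    have hκ1 : κ ≤ sg μ := by
      refine le_sg ?_ hs
      rw [← hμ]
      refine le_trans ?_ (atoms_le ρ σ X)
      refine Finset.sum_le_sum fun x _ => ?_
      refine Measure.le_iff.2 fun B hB => ?_
      rw [Measure.smul_apply, Measure.smul_apply, smul_eq_mul, smul_eq_mul]
      refine mul_le_mul' (min_le_left _ _) ?_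
      exact Measure.map_mono (sg_le σ) (measurable_const_add x) B
    have hκ2 : κ.map (fun x => x + θ) ≤ sg μ := by
      have e : κ.map (fun x => x + θ) = ∑ x ∈ X.image (fun x => x + θ),
          w (x - θ) • (sg σ).map (fun z => x + z) := by
        rw [Finset.sum_image (fun a _ b _ hab => add_right_cancel hab)]
        refine Measure.ext fun B hB => ?_
        rw [Measure.map_apply (measurable_add_const θ) hB, hκ, Measure.finsetSum_apply,
          Measure.finsetSum_apply]
        refine Finset.sum_congr rfl fun x _ => ?_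
        rw [Measure.smul_apply, Measure.smul_apply, add_sub_cancel_right,
          Measure.map_apply (measurable_const_add _) (measurable_add_const θ hB),
          Measure.map_apply (measurable_const_add _) hB]
        congr 2
        ext z
        simp only [mem_preimage]
        rw [add_right_comm]
      rw [e]
      refine le_sg ?_ (sum_singular _ _ fun x => (map_singular (sg_singular σ) x).smul _)
      rw [← hμ]
      refine le_trans ?_ (atoms_le ρ σ (X.image (fun x => x + θ)))
      refine Finset.sum_le_sum fun x _ => ?_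
      refine Measure.le_iff.2 fun B hB => ?_
      rw [Measure.smul_apply, Measure.smul_apply, smul_eq_mul, smul_eq_mul]
      refine mul_le_mul' ?_ ?_
      · refine (min_le_right _ _).trans (le_of_eq ?_)
        rw [sub_add_cancel]
      · exact Measure.map_mono (sg_le σ) (measurable_const_add x) B
    refine le_trans (le_of_eq ?_) (kappa_le hκ1 hκ2 hA)
    rw [hκ, Measure.finsetSum_apply, Finset.sum_mul]
    refine Finset.sum_congr rfl fun x _ => ?_
    rw [Measure.smul_apply, smul_eq_mul, Measure.map_apply (measurable_const_add x) MeasurableSet.univ,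
      preimage_univ]
  have h2 : (c : ℝ≥0∞) * sg μ univ ≤ (∑' x, w x) * sg σ univ := by
    refine mul_le_mul' h ?_
    rw [← hμ]
    exact sg_conv_le ρ σ
  refine h2.trans ?_
  rw [ENNReal.tsum_eq_iSup_sum, ENNReal.iSup_mul]
  exact iSup_le key

/-- **Relative quasi-invariance.** -/
theorem quasi_mem {μ κ : Measure T} [IsProbabilityMeasure μ] (G : AddSubgroup T)
    (hG : (G : Set T).Countable) {θ : T} (hθ : θ ∈ G) {c : ℝ≥0} (h1 : κ ≤ μ)
    (h2 : κ.map (fun x => x + θ) ≤ μ)
    (h3 : ∀ F : Set T, MeasurableSet F → (∀ g ∈ G, ∀ x ∈ F, x + g ∈ F) → (c : ℝ≥0∞) * μ F ≤ κ F) :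
    ∀ A : Set T, MeasurableSet A →
      (c : ℝ≥0∞) * sg μ univ ≤ sg μ A + sg μ {x | x + θ ∉ A} := by
  classical
  intro A hA
  obtain ⟨N, hN, hN1, hN2⟩ := sg_singular μ
  have := hG.to_subtype
  set F : Set T := ⋃ g : G, (fun x => x + (g : T)) ⁻¹' Nᶜ with hF
  have hFm : MeasurableSet F := MeasurableSet.iUnion fun g => measurable_add_const _ hN.compl
  have hF0 : (volume : Measure T) F = 0 := by
    rw [hF, measure_iUnion_null_iff]
    intro g
    rw [measure_preimage_add_right]
    exact hN2
  have hFG : ∀ g ∈ G, ∀ x ∈ F, x + g ∈ F := by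
    intro g hg x hx
    rw [hF, mem_iUnion] at hx ⊢
    obtain ⟨k, hk⟩ := hx
    refine ⟨⟨k - g, G.sub_mem k.2 hg⟩, ?_⟩
    simp only [mem_preimage] at hk ⊢
    have e : x + g + ((k : T) - g) = x + k := by abel
    rwa [e]
  have hNF : Nᶜ ⊆ F := by
    intro x hx
    rw [hF, mem_iUnion]
    exact ⟨0, by simpa using hx⟩
  have hsF : sg μ Fᶜ = 0 := by
    refine measure_mono_null ?_ hN1
    intro x hx
    by_contra h
    exact hx (hNF h)
  have hsing : ∀ κ' : Measure T, κ'.restrict F ⟂ₘ (volume : Measure T) := fun κ' =>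
    ⟨Fᶜ, hFm.compl, by
      rw [Measure.restrict_apply hFm.compl, compl_inter_self, measure_empty], by
      rw [compl_compl]; exact hF0⟩
  have e1 : μ F = sg μ univ := by
    have h4 : ac μ F = 0 := ac_ac μ hF0
    have h5 : μ F = sg μ F := by
      conv_lhs => rw [← sg_add_ac μ]
      rw [Measure.add_apply, h4, add_zero]
    rw [h5, ← measure_add_measure_compl hFm, hsF, add_zero]
  have hk1 : κ.restrict F ≤ sg μ := le_sg (Measure.restrict_le_self.trans h1) (hsing κ)
  have hk2 : (κ.restrict F).map (fun x => x + θ) ≤ sg μ := by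
    have e2 : (κ.restrict F).map (fun x => x + θ) = (κ.map (fun x => x + θ)).restrict F := by
      refine Measure.ext fun B hB => ?_
      rw [Measure.map_apply (measurable_add_const θ) hB, Measure.restrict_apply hB,
        Measure.restrict_apply (measurable_add_const θ hB),
        Measure.map_apply (measurable_add_const θ) (hB.inter hFm)]
      congr 1
      ext x
      simp only [mem_inter_iff, mem_preimage]
      refine and_congr_right fun _ => ⟨fun hx => hFG θ hθ x hx, fun hx => ?_⟩
      have := hFG (-θ) (G.neg_mem hθ) _ hx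
      simpa using this
    rw [e2]
    exact le_sg (Measure.restrict_le_self.trans h2) (hsing _)
  have h6 := kappa_le hk1 hk2 hA
  rw [Measure.restrict_apply_univ] at h6
  refine le_trans ?_ h6
  rw [← e1]
  exact h3 F hFm hFG

end Pool.Agent.K3h28.RS
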