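import Pool.Agent.K3h28.RS.Factor

/-!
Random series on the circle.
-/

set_option autoImplicit false

open MeasureTheory Filter Topology Set ProbabilityTheory
open scoped ENNReal NNReal BoundedContinuousFunction

namespace Pool.Agent.K3h28.RS

variable {Ω : Type*} [MeasurableSpace Ω] {P : Measure Ω} [IsProbabilityMeasure P]

/-- independence passes to almost sure limits -/
lemma indep_limit {Z : Ω → T} {V : ℕ → Ω → T} {W : Ω → T} (hZ : Measurable Z)
    (hV : ∀ n, Measurable (V n)) (hW : Measurable W) (hind : ∀ᶠ n in atTop, IndepFun Z (V n) P)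
    (hlim : ∀ᵐ ω ∂P, Tendsto (fun n => V n ω) atTop (𝓝 (W ω))) : IndepFun Z W P := by
  rw [indepFun_iff_measure_inter_preimage_eq_mul]
  intro A B hA hB
  set E : Set Ω := Z ⁻¹' A with hE
  have hEm : MeasurableSet E := hZ hA
  have key : (P.restrict E).map W = P E • P.map W := by
    have : IsFiniteMeasure (P E • P.map W) := Measure.smul_finite _ (measure_ne_top _ _)
    refine ext_of_forall_integral_eq_of_IsFiniteMeasure fun f => ?_
    have hfm : Measurable f := f.continuous.measurable
    rw [integral_map hW.aemeasurable hfm.aestronglyMeasurable, integral_smul_measure,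
      integral_map hW.aemeasurable hfm.aestronglyMeasurable]
    have hbd : ∀ n, ∀ᵐ ω ∂P, ‖f (V n ω)‖ ≤ ‖f‖ := fun n =>
      Eventually.of_forall fun ω => f.norm_coe_le_norm _
    have hlim' : ∀ᵐ ω ∂P, Tendsto (fun n => f (V n ω)) atTop (𝓝 (f (W ω))) := by
      filter_upwards [hlim] with ω hω
      exact (f.continuous.tendsto _).comp hω
    have t1 : Tendsto (fun n => ∫ ω in E, f (V n ω) ∂P) atTop (𝓝 (∫ ω in E, f (W ω) ∂P)) := by
      refine tendsto_integral_of_dominated_convergence (fun _ => ‖f‖)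
        (fun n => (hfm.comp (hV n)).aestronglyMeasurable) (integrable_const _)
        (fun n => ae_restrict_of_ae (hbd n)) (ae_restrict_of_ae hlim')
    have t2 : Tendsto (fun n => ∫ ω, f (V n ω) ∂P) atTop (𝓝 (∫ ω, f (W ω) ∂P)) :=
      tendsto_integral_of_dominated_convergence (fun _ => ‖f‖)
        (fun n => (hfm.comp (hV n)).aestronglyMeasurable) (integrable_const _) hbd hlim'
    have t3 : ∀ᶠ n in atTop, ∫ ω in E, f (V n ω) ∂P = (P E).toReal • ∫ ω, f (V n ω) ∂P := by
      filter_upwards [hind] with n hn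
      have e : (P.restrict E).map (V n) = P E • P.map (V n) := by
        refine Measure.ext fun C hC => ?_
        rw [Measure.map_apply (hV n) hC, Measure.restrict_apply (hV n hC), Measure.smul_apply,
          smul_eq_mul, Measure.map_apply (hV n) hC, inter_comm]
        exact (indepFun_iff_measure_inter_preimage_eq_mul.1 hn) A C hA hC
      rw [← integral_map (hV n).aemeasurable hfm.aestronglyMeasurable, e, integral_smul_measure,
        integral_map (hV n).aemeasurable hfm.aestronglyMeasurable]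
    exact tendsto_nhds_unique t1 ((t2.const_smul _).congr' (t3.mono fun n hn => hn.symm))
  have h1 := congrArg (fun ν : Measure T => ν B) key
  rw [Measure.map_apply hW hB, Measure.restrict_apply (hW hB), Measure.smul_apply, smul_eq_mul,
    Measure.map_apply hW hB, inter_comm] at h1
  exact h1

/-- the terms of a convergent series tend to zero in probability -/
lemma terms_small {X : ℕ → Ω → T} (hX : ∀ n, Measurable (X n)) {S : Ω → T}
    (hlim : ∀ᵐ ω ∂P, Tendsto (fun N => ∑ i ∈ Finset.range N, X i ω) atTop (𝓝 (S ω)))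
    {ε : ℝ} (hε : 0 < ε) {δ : ℝ≥0∞} (hδ : 0 < δ) :
    ∀ᶠ n in atTop, P {ω | ε ≤ ‖X n ω‖} < δ := by
  have h1 : ∀ᵐ ω ∂P, Tendsto (fun n => X n ω) atTop (𝓝 ((fun _ : Ω => (0 : T)) ω)) := by
    filter_upwards [hlim] with ω hω
    have h2 := (hω.comp (tendsto_add_atTop_nat 1)).sub hω
    rw [sub_self] at h2
    refine h2.congr fun n => ?_
    simp only [Function.comp]
    rw [Finset.sum_range_succ, add_sub_cancel_left]
  have h2 := tendstoInMeasure_of_tendsto_ae (μ := P)
    (fun n => (hX n).aestronglyMeasurable) h1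
  rw [tendstoInMeasure_iff_norm] at h2
  have h3 := (h2 ε hε).eventually (gt_mem_nhds hδ)
  filter_upwards [h3] with n hn
  simpa using hn

lemma theta_small {ρ : Measure T} {θ : T} {c : ℝ≥0} {ε : ℝ}
    (h : (c : ℝ≥0∞) ≤ ∑' x, min (ρ {x}) (ρ {x + θ})) (hρ : ρ {x | ε ≤ ‖x‖} < c / 2) :
    ‖θ‖ < 2 * ε := by
  by_contra hcon
  push Not at hcon
  set B : Set T := {x | ε ≤ ‖x‖} with hB
  have hBm : MeasurableSet B := measurableSet_le measurable_const measurable_norm
  have h1 : ∀ x, min (ρ {x}) (ρ {x + θ}) ≤ ρ ({x} ∩ B) + ρ ({x + θ} ∩ B) := by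
    intro x
    by_cases hx : ε ≤ ‖x‖
    · have : {x} ∩ B = {x} := inter_eq_left.2 (singleton_subset_iff.2 hx)
      rw [this]
      exact (min_le_left _ _).trans le_self_add
    · have hx2 : ε ≤ ‖x + θ‖ := by
        push Not at hx
        have := norm_sub_le (x + θ) x
        rw [add_sub_cancel_left] at this
        linarith
      have : {x + θ} ∩ B = {x + θ} := inter_eq_left.2 (singleton_subset_iff.2 hx2)
      rw [this]
      exact (min_le_right _ _).trans le_add_self
  have h2 : ∑' x : T, ρ ({x} ∩ B) ≤ ρ B := by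
    refine (tsum_meas_le_meas_iUnion_of_disjoint ρ (fun x => (measurableSet_singleton x).inter hBm)
      ?_).trans (measure_mono (iUnion_subset fun x => inter_subset_right))
    intro x y hxy
    show Disjoint ({x} ∩ B) ({y} ∩ B)
    exact (disjoint_singleton.2 hxy).mono inter_subset_left inter_subset_left
  have h3 : ∑' x : T, ρ ({x + θ} ∩ B) = ∑' x : T, ρ ({x} ∩ B) :=
    Equiv.tsum_eq (Equiv.addRight θ) (fun x : T => ρ ({x} ∩ B))
  have h4 : (c : ℝ≥0∞) ≤ ρ B + ρ B := by
    refine h.trans ((ENNReal.tsum_le_tsum h1).trans ?_)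
    rw [ENNReal.tsum_add, h3]
    exact add_le_add h2 h2
  have h5 : ρ B + ρ B < c / 2 + c / 2 := ENNReal.add_lt_add hρ hρ
  rw [ENNReal.add_halves] at h5
  exact absurd (h4.trans_lt h5) (lt_irrefl _)

/-- a finite set has no arbitrarily small nonzero elements -/
lemma gap {Θ : Set T} (h : Θ.Finite) : ∃ ε : ℝ, 0 < ε ∧ ∀ θ ∈ Θ, θ ≠ 0 → 2 * ε ≤ ‖θ‖ := by
  induction Θ, h using Set.Finite.induction_on with
  | empty => exact ⟨1, one_pos, by simp⟩
  | @insert a s _ _ ih =>
    obtain ⟨ε, hε, h⟩ := ih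
    rcases eq_or_ne a 0 with ha | ha
    · refine ⟨ε, hε, fun θ hθ h0 => ?_⟩
      rcases hθ with rfl | hθ
      · exact absurd ha h0
      · exact h θ hθ h0
    · have ha' : 0 < ‖a‖ := norm_pos_iff.2 ha
      refine ⟨min ε (‖a‖ / 2), lt_min hε (by positivity), fun θ hθ h0 => ?_⟩
      rcases hθ with rfl | hθ
      · have := min_le_right ε (‖θ‖ / 2)
        linarith
      · have := min_le_left ε (‖a‖ / 2)
        have := h θ hθ h0
        linarith

/-- **Independent terms.** -/
theorem series_indep {p q : ℕ} (hp : 2 ≤ p) (hq : 2 ≤ q)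
    (hirr : Irrational (Real.log (p : ℝ) / Real.log (q : ℝ)))
    {X : ℕ → Ω → T} (hX : ∀ n, Measurable (X n)) (hind : iIndepFun X P) {S : Ω → T}
    (hS : Measurable S)
    (hlim : ∀ᵐ ω ∂P, Tendsto (fun N => ∑ i ∈ Finset.range N, X i ω) atTop (𝓝 (S ω)))
    (hμp : MeasurePreserving (fun x : T => p • x) (P.map S) (P.map S))
    (hμq : MeasurePreserving (fun x : T => q • x) (P.map S) (P.map S)) {c : ℝ≥0} (hc : 0 < c)
    (h : ∃ᶠ n in atTop, ∃ θ : T, θ ≠ 0 ∧
      (c : ℝ≥0∞) ≤ ∑' x, min (P.map (X n) {x}) (P.map (X n) {x + θ})) :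
    P.map S = volume := by
  classical
  by_contra hne
  have hprob : IsProbabilityMeasure (P.map S) := Measure.isProbabilityMeasure_map hS.aemeasurable
  have hfin := finite_theta hp hq hirr hμp hμq hne hc
  obtain ⟨ε, hε, hgap⟩ := gap hfin
  have hc2 : (0 : ℝ≥0∞) < (c : ℝ≥0∞) / 2 :=
    ENNReal.div_pos (by exact_mod_cast hc.ne') (by norm_num)
  obtain ⟨n, ⟨θ, hθ0, hθ⟩, hn⟩ := (h.and_eventually (terms_small hX hlim hε hc2)).exists
  have hprob2 : IsProbabilityMeasure (P.map (X n)) :=
    Measure.isProbabilityMeasure_map (hX n).aemeasurable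
  have hYm : Measurable fun ω => S ω - X n ω := hS.sub (hX n)
  have hprob3 : IsProbabilityMeasure (P.map fun ω => S ω - X n ω) :=
    Measure.isProbabilityMeasure_map hYm.aemeasurable
  have hi : IndepFun (X n) (fun ω => S ω - X n ω) P := by
    refine indep_limit (V := fun N => ∑ i ∈ (Finset.range N).erase n, X i) (hX n)
      (fun N => by
        have := Finset.measurable_sum ((Finset.range N).erase n) fun i (_ : i ∈ (Finset.range N).erase n) => hX i
        convert this using 1
        ext ω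
        rw [Finset.sum_apply]) hYm
      (Eventually.of_forall fun N => ?_) ?_
    · exact (hind.indepFun_finsetSum_of_notMem hX (Finset.notMem_erase _ _)).symm
    · filter_upwards [hlim] with ω hω
      refine (hω.sub_const (X n ω)).congr' ?_
      filter_upwards [eventually_gt_atTop n] with N hN
      rw [Finset.sum_apply, ← Finset.add_sum_erase _ _ (Finset.mem_range.2 hN),
        add_sub_cancel_left]
  have hμ : ((P.map (X n)).prod (P.map fun ω => S ω - X n ω)).map (fun y : T × T => y.1 + y.2)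
      = P.map S := by
    rw [← (indepFun_iff_map_prod_eq_prod_map_map (hX n).aemeasurable hYm.aemeasurable).1 hi,
      Measure.map_map measurable_add ((hX n).prodMk hYm)]
    congr 1
    ext ω
    simp
  have hmem := factor_mem _ _ hθ hμ
  have h1 := hgap θ hmem hθ0
  have h2 : P.map (X n) {x | ε ≤ ‖x‖} < c / 2 := by
    rw [Measure.map_apply (hX n) (measurableSet_le measurable_const measurable_norm)]
    exact hn
  have h3 := theta_small hθ h2
  linarith

/-- countable subgroups -/
lemma countable_group {C : Set T} (hC : C.Countable) :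
    ∃ G : AddSubgroup T, (G : Set T).Countable ∧ C ⊆ G := by
  have := hC.to_subtype
  refine ⟨(Submodule.span ℤ C).toAddSubgroup, ?_, fun x hx => Submodule.subset_span hx⟩
  have e : ((Submodule.span ℤ C).toAddSubgroup : Set T) =
      range (Finsupp.linearCombination ℤ ((↑) : C → T)) := by
    rw [← LinearMap.coe_range, ← Finsupp.span_eq_range_linearCombination]
    rfl
  rw [e]
  exact countable_range _

/-- **Dependent terms.** -/
theorem series_dep {p q : ℕ} (hp : 2 ≤ p) (hq : 2 ≤ q)
    (hirr : Irrational (Real.log (p : ℝ) / Real.log (q : ℝ)))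
    {X : ℕ → Ω → T} (hX : ∀ n, Measurable (X n)) {S : Ω → T}
    (hS : Measurable S)
    (hlim : ∀ᵐ ω ∂P, Tendsto (fun N => ∑ i ∈ Finset.range N, X i ω) atTop (𝓝 (S ω)))
    (hμp : MeasurePreserving (fun x : T => p • x) (P.map S) (P.map S))
    (hμq : MeasurePreserving (fun x : T => q • x) (P.map S) (P.map S)) {c : ℝ≥0} (hc : 0 < c)
    (h : ∃ᶠ n in atTop, (∃ C : Set T, C.Countable ∧ ∀ᵐ ω ∂P, X n ω ∈ C) ∧
      ∃ a b : T, a ≠ b ∧ ∀ B : Set T, MeasurableSet B →
        (c : ℝ≥0∞) * P {ω | S ω - X n ω ∈ B} ≤ P {ω | X n ω = a ∧ S ω - X n ω ∈ B} ∧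
        (c : ℝ≥0∞) * P {ω | S ω - X n ω ∈ B} ≤ P {ω | X n ω = b ∧ S ω - X n ω ∈ B}) :
    P.map S = volume := by
  classical
  by_contra hne
  have hprob : IsProbabilityMeasure (P.map S) := Measure.isProbabilityMeasure_map hS.aemeasurable
  have hfin := finite_theta hp hq hirr hμp hμq hne hc
  obtain ⟨ε, hε, hgap⟩ := gap hfin
  have hcp : (0 : ℝ≥0∞) < (c : ℝ≥0∞) := by exact_mod_cast hc
  obtain ⟨n, ⟨⟨C, hC, hXC⟩, a, b, hab, hB⟩, hn⟩ :=
    (h.and_eventually (terms_small hX hlim hε hcp)).exists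
  have hYm : Measurable fun ω => S ω - X n ω := hS.sub (hX n)
  have hA : ∀ d : T, (∀ B : Set T, MeasurableSet B →
      (c : ℝ≥0∞) * P {ω | S ω - X n ω ∈ B} ≤ P {ω | X n ω = d ∧ S ω - X n ω ∈ B}) →
      (c : ℝ≥0∞) ≤ P {ω | X n ω = d} := by
    intro d hd
    have := hd univ MeasurableSet.univ
    simpa using this
  have hmemC : ∀ d : T, (c : ℝ≥0∞) ≤ P {ω | X n ω = d} → d ∈ C := by
    intro d hd
    by_contra hdC
    have : P {ω | X n ω = d} = 0 := by
      refine measure_mono_null ?_ (ae_iff.1 hXC)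
      intro ω hω
      simp only [mem_ofPred_eq] at hω ⊢
      rwa [hω]
    rw [this] at hd
    exact absurd hd (not_le.2 hcp)
  have hsm : ∀ d : T, (c : ℝ≥0∞) ≤ P {ω | X n ω = d} → ‖d‖ < ε := by
    intro d hd
    by_contra hcon
    push Not at hcon
    have : P {ω | X n ω = d} ≤ P {ω | ε ≤ ‖X n ω‖} := by
      apply measure_mono
      intro ω hω
      simp only [mem_ofPred_eq] at hω ⊢
      rwa [hω]
    exact absurd (hd.trans this) (not_le.2 hn)
  have ha := hA a fun B hBm => (hB B hBm).1
  have hb := hA b fun B hBm => (hB B hBm).2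
  obtain ⟨G, hG, hCG⟩ := countable_group hC
  have haG : a ∈ G := hCG (hmemC a ha)
  have hbG : b ∈ G := hCG (hmemC b hb)
  set κ : Measure T := (c : ℝ≥0∞) • P.map (fun ω => a + (S ω - X n ω)) with hκ
  have hma : ∀ d : T, Measurable fun ω => d + (S ω - X n ω) := fun d => hYm.const_add d
  have hle : ∀ d : T, (∀ B : Set T, MeasurableSet B →
      (c : ℝ≥0∞) * P {ω | S ω - X n ω ∈ B} ≤ P {ω | X n ω = d ∧ S ω - X n ω ∈ B}) →
      (c : ℝ≥0∞) • P.map (fun ω => d + (S ω - X n ω)) ≤ P.map S := by
    intro d hd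
    refine Measure.le_iff.2 fun B hBm => ?_
    rw [Measure.smul_apply, smul_eq_mul, Measure.map_apply (hma d) hBm, Measure.map_apply hS hBm]
    refine (hd ((fun z => d + z) ⁻¹' B) (measurable_const_add d hBm)).trans (measure_mono ?_)
    rintro ω ⟨h1, h2⟩
    simp only [mem_preimage] at h2 ⊢
    rw [h1] at h2
    simpa using h2
  have h1 : κ ≤ P.map S := hle a fun B hBm => (hB B hBm).1
  have h2 : κ.map (fun x => x + (b - a)) ≤ P.map S := by
    have e : κ.map (fun x => x + (b - a)) = (c : ℝ≥0∞) • P.map (fun ω => b + (S ω - X n ω)) := by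
      rw [hκ, Measure.map_smul, Measure.map_map (measurable_add_const _) (hma a)]
      congr 2
      ext ω
      simp only [Function.comp]
      abel
    rw [e]
    exact hle b fun B hBm => (hB B hBm).2
  have h3 : ∀ F : Set T, MeasurableSet F → (∀ g ∈ G, ∀ x ∈ F, x + g ∈ F) →
      (c : ℝ≥0∞) * P.map S F ≤ κ F := by
    intro F hF hFG
    rw [hκ, Measure.smul_apply, smul_eq_mul, Measure.map_apply (hma a) hF, Measure.map_apply hS hF]
    refine mul_le_mul' le_rfl ?_
    have : P (S ⁻¹' F) = P (S ⁻¹' F ∩ {ω | X n ω ∈ C}) := by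
      refine measure_congr ?_
      filter_upwards [hXC] with ω hω
      rw [eq_iff_iff]
      constructor
      · exact fun h => ⟨h, hω⟩
      · exact fun h => h.1
    rw [this]
    apply measure_mono
    rintro ω ⟨h4, h5⟩
    simp only [mem_preimage] at h4 ⊢
    have h6 := hFG (a - X n ω) (G.sub_mem haG (hCG h5)) _ h4
    have e : S ω + (a - X n ω) = a + (S ω - X n ω) := by abel
    rwa [e] at h6
  have hmem := quasi_mem G hG (G.sub_mem hbG haG) h1 h2 h3
  have h4 := hgap (b - a) hmem (sub_ne_zero.2 hab.symm)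
  have h5 := norm_sub_le b a
  linarith [hsm a ha, hsm b hb]

end Pool.Agent.K3h28.RS
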