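import Mathlib
import Pool.Agent.R477.XQ.Overlap

/-!
The singular part of an invariant measure and its overlaps with translates.
-/

set_option autoImplicit false

open MeasureTheory Filter Topology Set
open scoped ENNReal NNReal

namespace Pool.Agent.K3h28.RS

abbrev T := UnitAddCircle

/-- the singular part with respect to Lebesgue measure -/
noncomputable def sg (μ : Measure T) : Measure T := μ.singularPart (volume : Measure T)

lemma sg_le (μ : Measure T) : sg μ ≤ μ := Measure.singularPart_le _ _

lemma sg_singular (μ : Measure T) : sg μ ⟂ₘ (volume : Measure T) :=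
  Measure.mutuallySingular_singularPart _ _

/-- the absolutely continuous part -/
noncomputable def ac (μ : Measure T) : Measure T :=
  (volume : Measure T).withDensity (μ.rnDeriv (volume : Measure T))

lemma ac_ac (μ : Measure T) : ac μ ≪ (volume : Measure T) :=
  withDensity_absolutelyContinuous _ _

lemma sg_add_ac (μ : Measure T) [IsFiniteMeasure μ] : sg μ + ac μ = μ :=
  Measure.singularPart_add_rnDeriv μ (volume : Measure T)

instance (μ : Measure T) [IsFiniteMeasure μ] : IsFiniteMeasure (sg μ) := by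
  unfold sg
  infer_instance

instance (μ : Measure T) [IsFiniteMeasure μ] : IsFiniteMeasure (ac μ) := by
  refine isFiniteMeasure_of_le μ ?_
  conv_rhs => rw [← sg_add_ac μ]
  exact Measure.le_add_left le_rfl

lemma le_sg {κ μ : Measure T} [IsFiniteMeasure μ] (h : κ ≤ μ) (hs : κ ⟂ₘ (volume : Measure T)) :
    κ ≤ sg μ := by
  obtain ⟨N, hN, h1, h2⟩ := hs
  refine Measure.le_iff.2 fun A hA => ?_
  have h3 : κ A ≤ κ (A ∩ Nᶜ) + κ N := by
    refine (measure_mono ?_).trans (measure_union_le _ _)
    intro x hx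
    by_cases hxN : x ∈ N
    · exact Or.inr hxN
    · exact Or.inl ⟨hx, hxN⟩
  rw [h1, add_zero] at h3
  refine h3.trans ((h (A ∩ Nᶜ)).trans ?_)
  have h4 : ac μ (A ∩ Nᶜ) = 0 := ac_ac μ (measure_mono_null inter_subset_right h2)
  calc μ (A ∩ Nᶜ) = (sg μ + ac μ) (A ∩ Nᶜ) := by rw [sg_add_ac]
    _ = sg μ (A ∩ Nᶜ) := by rw [Measure.add_apply, h4, add_zero]
    _ ≤ sg μ A := measure_mono inter_subset_left

lemma mp_vol {n : ℕ} (hn : 2 ≤ n) :
    MeasurePreserving (fun x : T => n • x) (volume : Measure T) volume :=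
  (AddCircle.ergodic_nsmul (T := 1) (by omega : 1 < n)).toMeasurePreserving

/-- the singular part of an invariant measure is invariant -/
lemma sg_invariant {n : ℕ} (hn : 2 ≤ n) {μ : Measure T} [IsFiniteMeasure μ]
    (h : MeasurePreserving (fun x : T => n • x) μ μ) :
    MeasurePreserving (fun x : T => n • x) (sg μ) (sg μ) := by
  have hf : Measurable (fun x : T => n • x) := (continuous_nsmul n).measurable
  have h1 : (sg μ).map (fun x : T => n • x) + (ac μ).map (fun x : T => n • x) = μ := by
    rw [← Measure.map_add _ _ hf, sg_add_ac, h.map_eq]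
  have h2 : (ac μ).map (fun x : T => n • x) ≪ (volume : Measure T) := by
    have := (ac_ac μ).map hf
    rwa [(mp_vol hn).map_eq] at this
  have h3 : sg μ = sg ((sg μ).map (fun x : T => n • x)) := by
    have h4 := Measure.singularPart_add ((sg μ).map (fun x : T => n • x))
      ((ac μ).map (fun x : T => n • x)) (volume : Measure T)
    rw [h1, Measure.singularPart_eq_zero_of_ac h2, add_zero] at h4
    exact h4
  have h5 : sg μ ≤ (sg μ).map (fun x : T => n • x) := by
    conv_lhs => rw [h3]
    exact sg_le _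
  have h6 : sg μ = (sg μ).map (fun x : T => n • x) := by
    refine Measure.eq_of_le_of_measure_univ_eq h5 ?_
    rw [Measure.map_apply hf MeasurableSet.univ, preimage_univ]
  exact ⟨hf, h6.symm⟩

lemma eq_vol_of_sg {n : ℕ} (hn : 2 ≤ n) {μ : Measure T} [IsProbabilityMeasure μ]
    (h : MeasurePreserving (fun x : T => n • x) μ μ) (h0 : sg μ univ = 0) : μ = volume := by
  have h1 : sg μ = 0 := Measure.measure_univ_eq_zero.1 h0
  have h2 : μ ≪ (volume : Measure T) := by
    have := sg_add_ac μ
    rw [h1, zero_add] at this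
    rw [← this]
    exact ac_ac μ
  exact (AddCircle.ergodic_nsmul (T := 1) (by omega : 1 < n)).eq_of_absolutelyContinuous h h2

/-- **Finiteness of the set of translates overlapping with the singular part.** -/
theorem finite_theta {p q : ℕ} (hp : 2 ≤ p) (hq : 2 ≤ q)
    (hirr : Irrational (Real.log (p : ℝ) / Real.log (q : ℝ))) {μ : Measure T}
    [IsProbabilityMeasure μ] (hμp : MeasurePreserving (fun x : T => p • x) μ μ)
    (hμq : MeasurePreserving (fun x : T => q • x) μ μ) (hne : μ ≠ volume) {c : ℝ≥0} (hc : 0 < c) :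
    {θ : T | ∀ A : Set T, MeasurableSet A →
      (c : ℝ≥0∞) * sg μ univ ≤ sg μ A + sg μ {x | x + θ ∉ A}}.Finite := by
  set m := sg μ univ with hm
  have hm0 : m ≠ 0 := fun h0 => hne (eq_vol_of_sg hp hμp h0)
  have hmt : m ≠ ∞ := measure_ne_top _ _
  set ν : Measure T := m⁻¹ • sg μ with hν
  have hprob : IsProbabilityMeasure ν := by
    refine ⟨?_⟩
    rw [hν, Measure.smul_apply, smul_eq_mul]
    exact ENNReal.inv_mul_cancel hm0 hmt
  have hinv : ∀ n : ℕ, 2 ≤ n → MeasurePreserving (fun x : T => n • x) μ μ →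
      MeasurePreserving (fun x : T => n • x) ν ν := by
    intro n hn h
    have h1 := sg_invariant hn h
    refine ⟨h1.measurable, ?_⟩
    rw [hν, Measure.map_smul, h1.map_eq]
  have hnot : ¬ ((c : ℝ≥0∞) • (volume : Measure T) ≤ ν) := by
    intro hle
    obtain ⟨N, hN, h1, h2⟩ := sg_singular μ
    have h3 := hle N
    rw [hν, Measure.smul_apply, Measure.smul_apply, h1, smul_zero, smul_eq_mul] at h3
    have h4 : (volume : Measure T) N = 1 := by
      have := prob_add_prob_compl (μ := (volume : Measure T)) hN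
      rwa [h2, add_zero] at this
    rw [h4, mul_one] at h3
    have : (c : ℝ≥0∞) = 0 := le_antisymm h3 zero_le
    exact hc.ne' (by exact_mod_cast this)
  have hfin := (Pool.Agent.R477.XQ.main_iff hp hq hirr (a := 1) (b := 1) one_ne_zero one_ne_zero
    (hinv p hp hμp) (hinv q hq hμq) (c := c)).2 hnot
  refine hfin.subset ?_
  intro θ hθ
  refine ⟨ν, hprob, hinv p hp hμp, hinv q hq hμq, fun A hA => ?_⟩
  have h1 := hθ A hA
  simp only [one_zsmul]
  rw [hν, Measure.smul_apply, Measure.smul_apply, smul_eq_mul, smul_eq_mul, ← mul_add]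
  have h2 := mul_le_mul_right h1 m⁻¹
  calc (c : ℝ≥0∞) = m⁻¹ * (c * m) := by
        rw [mul_comm (c : ℝ≥0∞) m, ← mul_assoc, ENNReal.inv_mul_cancel hm0 hmt, one_mul]
    _ ≤ _ := h2

/-- the criterion -/
lemma kappa_le {μ κ : Measure T} {θ : T} (h1 : κ ≤ sg μ)
    (h2 : κ.map (fun x => x + θ) ≤ sg μ) {A : Set T} (hA : MeasurableSet A) :
    κ univ ≤ sg μ A + sg μ {x | x + θ ∉ A} := by
  have hm : Measurable fun x : T => x + θ := measurable_add_const θ
  have h4 := h2 A
  rw [Measure.map_apply hm hA] at h4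
  have h5 := h1 {x | x + θ ∉ A}
  refine le_trans ?_ (add_le_add h4 h5)
  have : (univ : Set T) = ((fun x => x + θ) ⁻¹' A) ∪ {x | x + θ ∉ A} := by
    ext x
    simp only [mem_univ, mem_union, mem_preimage, mem_ofPred_eq, true_iff]
    exact em _
  rw [this]
  exact measure_union_le _ _

end Pool.Agent.K3h28.RS
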